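import Pool.Agent.TH855.Quad.Final

set_option autoImplicit false

namespace Pool.Agent.Results.MP_0f87c6_ag.PointlessTwoQuadrics

open Pool.Agent.TH855.Quad

/-- There are a field `k` of cohomological dimension one and a smooth complete intersection of two
quadrics in `ℙ⁵` over `k` without `k`-rational points. -/
theorem result : ∃ (k : Type) (_ : Field k), HasCohomologicalDimension k 1 ∧
    ∃ f g : MvPolynomial (Fin (5 + 1)) k, f.IsHomogeneous 2 ∧ g.IsHomogeneous 2 ∧
      IsSmoothCompleteIntersection f g ∧ ¬ HasRationalPoint f g :=
  main

end Pool.Agent.Results.MP_0f87c6_ag.PointlessTwoQuadrics
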